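import Pool.Agent.helper81.CW.Spec2

/-!
# cw, MU2: numerical inequality
-/

namespace Pool.Agent.helper81.CW

theorem MU2_poly (β : ℝ) (hβ : 0 ≤ β) :
    0 ≤ ((0.926 : ℝ) ^ 3 - 1 / 2) + 1.41421 * β ^ 3 - 3 * 0.926 ^ 2 * β ^ 2 + 3 * 0.926 * β ^ 4 := by
  have h : ((0.926 : ℝ) ^ 3 - 1 / 2) + 1.41421 * β ^ 3 - 3 * 0.926 ^ 2 * β ^ 2 + 3 * 0.926 * β ^ 4 =
      (β - 0.51582) ^ 2 * (2.778 * β ^ 2 + (1.41421 + 2 * 0.51582 * 2.778) * β +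
        (-(3 * 0.926 ^ 2) + 2 * 0.51582 * (1.41421 + 2 * 0.51582 * 2.778) - 0.51582 ^ 2 * 2.778)) +
      (2 * 0.51582 * (-(3 * 0.926 ^ 2) + 2 * 0.51582 * (1.41421 + 2 * 0.51582 * 2.778) -
        0.51582 ^ 2 * 2.778) - 0.51582 ^ 2 * (1.41421 + 2 * 0.51582 * 2.778)) * β +
      ((0.926 ^ 3 - 1 / 2) - 0.51582 ^ 2 * (-(3 * 0.926 ^ 2) +
        2 * 0.51582 * (1.41421 + 2 * 0.51582 * 2.778) - 0.51582 ^ 2 * 2.778)) := by
    ring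
  rw [h]
  have e1 : (0 : ℝ) ≤ 2 * 0.51582 * (-(3 * 0.926 ^ 2) + 2 * 0.51582 * (1.41421 + 2 * 0.51582 * 2.778) -
        0.51582 ^ 2 * 2.778) - 0.51582 ^ 2 * (1.41421 + 2 * 0.51582 * 2.778) := by norm_num
  have e0 : (0 : ℝ) ≤ (0.926 ^ 3 - 1 / 2) - 0.51582 ^ 2 * (-(3 * 0.926 ^ 2) +
        2 * 0.51582 * (1.41421 + 2 * 0.51582 * 2.778) - 0.51582 ^ 2 * 2.778) := by norm_num
  have e2 : (0 : ℝ) ≤ 2.778 * β ^ 2 + (1.41421 + 2 * 0.51582 * 2.778) * β +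
        (-(3 * 0.926 ^ 2) + 2 * 0.51582 * (1.41421 + 2 * 0.51582 * 2.778) - 0.51582 ^ 2 * 2.778) := by
    have e3 : (0 : ℝ) ≤ -(3 * 0.926 ^ 2) + 2 * 0.51582 * (1.41421 + 2 * 0.51582 * 2.778) -
        0.51582 ^ 2 * 2.778 := by norm_num
    positivity
  positivity

theorem MU2 : MU2_stmt := by
  intro a b ha hb h
  by_contra hcon
  push Not at hcon
  set β := Real.sqrt b with hβ
  have hβ0 : 0 ≤ β := Real.sqrt_nonneg b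
  have hb2 : β ^ 2 = b := Real.sq_sqrt hb
  have hb3 : b ^ ((3 : ℝ) / 2) = β ^ 3 := by
    rw [hβ, Real.sqrt_eq_rpow, ← Real.rpow_natCast, ← Real.rpow_mul hb]
    norm_num
  have hs2 : (1.41421 : ℝ) ≤ Real.sqrt 2 := by
    apply Real.le_sqrt_of_sq_le
    norm_num
  have hβ3 : 0 ≤ β ^ 3 := by positivity
  rw [hb3] at h
  have h1 : a ^ 3 + b ^ 3 + 1.41421 * β ^ 3 ≤ 1 / 2 := by nlinarith
  have hb3' : b ^ 3 = β ^ 6 := by rw [← hb2]; ring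
  by_cases hc : b ≤ 0.926
  · have h2 : 0.926 - b < a := by linarith
    have h3 : (0.926 - b) ^ 3 < a ^ 3 := by
      apply pow_lt_pow_left₀ h2 (by linarith) (by norm_num)
    have h4 : (0.926 - b) ^ 3 = 0.926 ^ 3 - 3 * 0.926 ^ 2 * β ^ 2 + 3 * 0.926 * β ^ 4 - β ^ 6 := by
      rw [← hb2]; ring
    have h5 := MU2_poly β hβ0
    rw [hb3'] at h1
    rw [h4] at h3
    linarith
  · push Not at hc
    have h6 : (0.926 : ℝ) ^ 3 < b ^ 3 := pow_lt_pow_left₀ hc (by norm_num) (by norm_num)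
    have h7 : 0 ≤ a ^ 3 := by positivity
    have h8 : (1 / 2 : ℝ) < 0.926 ^ 3 := by norm_num
    nlinarith

end Pool.Agent.helper81.CW
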